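import Mathlib
import Pool.Agent.H.BS.F

set_option autoImplicit false

namespace Pool.Agent.Results.MP_e0af59_co.Yes

open Pool.Agent.H.BS Complex Equiv ComplexConjugate

def D (n : ℕ) (κ u v : ℂ) : Prop := ∃ ω : ℂ, ω ^ n = 1 ∧ (v = ω * u ∨ v = ω * (κ * conj u))

lemma dih (n : ℕ) [NeZero n] {κ : ℂ} (hκ : κ * conj κ = 1) {A : Type} [Finite A] (P : A → ℂ)
    (t : A → ℝ) : RI A (fun a b => normSq (P a - P b) + (t a - t b) ^ 2)
      (Relation.EqvGen fun a b => t a = t b ∧ D n κ (P a) (P b)) := by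
  classical
  have _ := Fintype.ofFinite (rootsOfUnity n ℂ)
  let T : (rootsOfUnity n ℂ × Bool) × A → ℂ × ℝ := fun q =>
    (q.1.1.1 * bif q.1.2 then κ * conj (P q.2) else P q.2, t q.2)
  have h0 : RI (Set.range T) (fun a b => normSq (a.1.1 - b.1.1) + (a.1.2 - b.1.2) ^ 2) Eq :=
    fun C _ => ⟨Fin 3, inferInstance, fun c => ⟨fun a => ![a.1.1.re, a.1.1.im, a.1.2],
      fun a b => by simp [Fin.sum_univ_three, normSq_apply, sq], by simp⟩⟩
  have k1 : normSq κ = 1 := by rw [mul_conj] at hκ; exact_mod_cast hκ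
  refine (h0.sym eq_equivalence (by simp) (rootsOfUnity n ℂ × Bool)).sub
    (fun a g => ⟨_, (g, a), rfl⟩) (k := Fintype.card (rootsOfUnity n ℂ × Bool))
    (by exact_mod_cast Fintype.card_pos) (fun a b => ?_) fun a b r => ?_
  · rw [← nsmul_eq_mul, ← Finset.card_univ, ← Finset.sum_const]
    refine Finset.sum_congr rfl fun ⟨g, s⟩ _ => ?_
    have : normSq (g.1 : ℂ) = 1 := by
      rw [normSq_eq_norm_sq, norm_eq_one_of_mem_rootsOfUnity g.2]; simp
    cases s <;> simp [T, ← mul_sub, this, k1, ← map_sub]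
  · induction r with
    | rel a b r =>
      obtain ⟨r, ω, h, e⟩ := r
      let g := rootsOfUnity.mkOfPowEq ω h
      have c : conj ω = (g⁻¹).1 := by simpa [g] using conj_rootsOfUnity g.2
      have c' : ω = g.1 := rfl
      rcases e with e | e
      · refine ⟨Equiv.prodCongrLeft fun s => Equiv.mulRight (bif s then g⁻¹ else g), fun ⟨j, s⟩ =>
          Subtype.ext (Prod.ext ?_ r)⟩
        cases s
        · simp [T, e, c', mul_assoc]
        · simp only [T, e, map_mul, c]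
          simp
          ring
      · refine ⟨(Equiv.prodCongrLeft fun s => Equiv.mulRight (bif s then g⁻¹ else g)).trans
          (Equiv.prodCongr (Equiv.refl _) boolNot), fun ⟨j, s⟩ => Subtype.ext (Prod.ext ?_ r)⟩
        cases s
        · simp [T, e, c', mul_assoc]
        · simp only [T, e, map_mul, c]
          simp
          linear_combination (-(j.1 : ℂ) * (g.1 : ℂ)⁻¹ * P a) * hκ
    | refl => exact ⟨1, fun _ => rfl⟩
    | symm a b _ ih =>
      obtain ⟨σ, h⟩ := ih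
      exact ⟨σ⁻¹, fun j => by simpa using (h (σ⁻¹ j)).symm⟩
    | trans a b c _ _ i1 i2 =>
      obtain ⟨σ, h⟩ := i1
      obtain ⟨τ, h'⟩ := i2
      exact ⟨σ * τ, fun j => (h (τ j)).trans (h' j)⟩

lemma prism (n : ℕ) [NeZero n] {κ : ℂ} (hκ : κ * conj κ = 1) {F : Type} [Finite F] (P : F → ℂ)
    (Q : F → Prop) [DecidablePred Q] {x0 y0 : F} (h0 : ¬Q y0) (hx : ∀ a, Q a → D n κ (P a) (P x0))
    (hy : ∀ a, ¬Q a → D n κ (P a) (P y0)) {H : ℝ} (H0 : 0 < H) :
    RI F (fun a b => normSq (P a - P b) + if Q a ↔ Q b then 0 else H) fun _ y => y = y0 := by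
  obtain ⟨m, hm⟩ := exists_nat_ge (normSq (P x0 - P y0) / H)
  obtain ⟨v, hv⟩ : ∃ v : ℝ, normSq (P x0 - P y0) / (m + 2) + 2 * v ^ 2 = H :=
    ⟨√((H - normSq (P x0 - P y0) / (m + 2)) / 2), by
      rw [Real.sq_sqrt]
      · ring
      · rw [div_le_iff₀ H0] at hm
        have : normSq (P x0 - P y0) / (m + 2) ≤ H := by
          rw [div_le_iff₀ (by positivity)]; nlinarith
        linarith⟩
  let P' : F ⊕ Fin (m + 3) → ℂ :=
    Sum.elim P fun i => P y0 + ((i : ℝ) / (m + 2) : ℝ) * (P x0 - P y0)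
  let t : F ⊕ Fin (m + 3) → ℝ := Sum.elim 0 fun i => if i.1 = 1 then v else 0
  have e := Relation.EqvGen.is_equivalence fun a b => t a = t b ∧ D n κ (P' a) (P' b)
  refine ((dih n hκ P' t).sym e (by simp) (Fin (m + 3))).sub
    (fun y => Fin.cons (.inl y) fun i => .inr (if Q y then i.castSucc else i.succ)) one_pos
    (fun a b => ?_) ?_
  · have k : ∑ i : Fin (m + 2), (normSq (P' (.inr i.castSucc) - P' (.inr i.succ)) +
        (t (.inr i.castSucc) - t (.inr i.succ)) ^ 2) = H := by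
      rw [← hv, Finset.sum_add_distrib, Finset.sum_congr rfl
        (g := fun _ => normSq (P x0 - P y0) / (m + 2) ^ 2) fun i _ => by
          simp only [P', Sum.elim_inr, add_sub_add_left_eq_sub, ← sub_mul, ← ofReal_sub, map_mul,
            normSq_ofReal]
          simp
          field_simp
          ring]
      simp [t, Fin.sum_univ_succ]
      field_simp
      ring
    rw [Fin.sum_univ_succ]
    simp only [Fin.cons_succ, Fin.cons_zero, one_mul]
    by_cases p : Q a <;> by_cases q : Q b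
    · simp [p, q, P', t]
    · simp only [p, q, if_true, if_false, k]; simp [P', t]
    · simp only [p, q, if_true, if_false, show ∀ i j, normSq (P' (.inr (Fin.succ i)) - j) =
        normSq (j - P' (.inr (Fin.succ i))) from fun i j => by rw [← normSq_neg, neg_sub],
        sub_sq_comm (t (.inr (Fin.succ _))), k]; simp [P', t]
    · simp [p, q, P', t]
  · rintro y _ rfl
    simp only [h0, if_false]
    by_cases p : Q y
    · simp only [p, if_true]
      let σ : Perm (Fin (m + 3)) := finRotate _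
      refine ⟨σ, Fin.lastCases ?_ fun i => ?_⟩
      · have : (m + 2 : ℂ) ≠ 0 := by exact_mod_cast (by positivity : (m + 2 : ℝ) ≠ 0)
        rw [show σ (Fin.last _) = 0 from finRotate_last, ← Fin.succ_last]
        exact .rel _ _ ⟨by simp [t], by simpa [P', this, add_assoc, one_add_one_eq_two] using hx y p⟩
      · rw [show σ i.castSucc = i.succ by simp [σ]]
        induction i using Fin.cases with
        | zero => exact .rel _ _ ⟨by simp [t], 1, by simp [P']⟩
        | succ i => exact .refl _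
    · simp only [p, if_false]
      exact ⟨1, Fin.cases (.rel _ _ ⟨rfl, hy y p⟩) fun i => .refl _⟩

lemma dense {a b : ℝ} (h : a < b) : ∃ τ : ℝ, a < τ ∧ τ < b ∧ ∃ n : ℕ, n ≠ 0 ∧ (-1 : ℂ) ^ n = 1 ∧
    ∃ ω : ℂ, ω ^ n = 1 ∧ 1 + τ * I = ω * (-1 + τ * I) := by
  have hp := Real.pi_pos
  obtain ⟨r, h1, h2⟩ := exists_rat_btwn (div_lt_div_of_pos_right (Real.arctan_strictMono h) hp)
  rw [div_lt_iff₀ hp] at h1
  rw [lt_div_iff₀ hp] at h2
  have a1 := (Real.neg_pi_div_two_lt_arctan a).trans h1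
  have a2 := h2.trans (Real.arctan_lt_pi_div_two b)
  have e := Real.arctan_tan a1 a2
  refine ⟨Real.tan (r * Real.pi), Real.arctan_strictMono.lt_iff_lt.1 (e.symm ▸ h1),
    Real.arctan_strictMono.lt_iff_lt.1 (e.symm ▸ h2), 2 * r.den, by simp, by simp,
    -exp ((r * Real.pi : ℝ) * I) ^ 2, ?_, ?_⟩
  · rw [pow_mul, neg_sq, ← pow_mul, ← pow_mul, ← exp_nat_mul, exp_eq_one_iff]
    refine ⟨2 * r.num, ?_⟩
    have : (r : ℂ) * r.den = r.num := by exact_mod_cast Rat.mul_den_eq_num r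
    push_cast
    linear_combination 4 * Real.pi * I * this
  · have c : ((Real.cos (r * Real.pi) : ℝ) : ℂ) ≠ 0 := by
      exact_mod_cast (Real.cos_pos_of_mem_Ioo ⟨a1, a2⟩).ne'
    have s : ((Real.cos (r * Real.pi) : ℝ) : ℂ) ^ 2 + (Real.sin (r * Real.pi) : ℝ) ^ 2 = 1 := by
      exact_mod_cast Real.cos_sq_add_sin_sq _
    rw [exp_mul_I, ← ofReal_cos, ← ofReal_sin, Real.tan_eq_sin_div_cos, ofReal_div]
    generalize ((Real.cos (r * Real.pi) : ℝ) : ℂ) = x at *
    generalize ((Real.sin (r * Real.pi) : ℝ) : ℂ) = y at *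
    field_simp
    linear_combination (-(x + y * I)) * s + (x + y * I) * y ^ 2 * I_sq

theorem result (a₁ a₂ a₃ a₄ p q : EuclideanSpace ℝ (Fin 3)) (h : ℝ)
    (h₁ : a₁ 2 = 0) (h₂ : a₂ 2 = 0) (h₃ : a₃ 2 = 0) (h₄ : a₄ 2 = 0)
    (hpar : a₁ + a₃ = a₂ + a₄) (hrect : inner ℝ (a₂ - a₁) (a₄ - a₁) = 0)
    (hpq : p ≠ q) (hp : p 2 = h) (hq : q 2 = h) (hh : 0 < h)
    (hperp : inner ℝ (midpoint ℝ a₁ a₃ - midpoint ℝ p q) (q - p) = 0) (k : ℕ) :
    ∃ N : ℕ, ∀ c : EuclideanSpace ℝ (Fin N) → Fin k,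
      ∃ g : ({a₁, a₂, a₃, a₄, p, q} : Set (EuclideanSpace ℝ (Fin 3))) → EuclideanSpace ℝ (Fin N),
        Isometry g ∧ ∀ x y, c (g x) = c (g y) := by
  classical
  let π : EuclideanSpace ℝ (Fin 3) → ℂ := fun y => ⟨y 0 - (a₁ 0 + a₃ 0) / 2, y 1 - (a₁ 1 + a₃ 1) / 2⟩
  have e0 : a₁ 0 + a₃ 0 = a₂ 0 + a₄ 0 := congrArg (· 0) hpar
  have e1 : a₁ 1 + a₃ 1 = a₂ 1 + a₄ 1 := congrArg (· 1) hpar
  simp only [PiLp.inner_apply, Fin.sum_univ_three, midpoint_eq_smul_add, PiLp.sub_apply,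
    PiLp.smul_apply, PiLp.add_apply, Real.inner_apply, h₁, h₂, h₃, h₄, hp, hq, smul_eq_mul,
    invOf_eq_inv] at hrect hperp
  have p3 : π a₁ = -1 * π a₃ := by apply Complex.ext <;> simp [π] <;> ring
  have p4 : π a₄ = -π a₂ := by apply Complex.ext <;> simp [π] <;> linarith
  obtain ⟨κ, hκ, p2⟩ : ∃ κ : ℂ, κ * conj κ = 1 ∧ π a₁ = κ * conj (π a₂) := by
    have : normSq (π a₁) = normSq (π a₂) := by
      simp only [π, normSq_mk]
      rw [show a₃ 0 = a₂ 0 + a₄ 0 - a₁ 0 by linarith, show a₃ 1 = a₂ 1 + a₄ 1 - a₁ 1 by linarith]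
      linarith
    by_cases c : π a₂ = 0
    · exact ⟨1, by simp, by simpa [c] using this⟩
    · exact ⟨π a₁ / conj (π a₂), by simp [mul_conj, this, c, -map_div₀, normSq_div], by simp [c]⟩
  obtain ⟨u, l, hu, pp, pq⟩ : ∃ (u : ℂ) (l : ℝ), u ≠ 0 ∧ π p = (-1 + l * I) * u ∧
      π q = (1 + l * I) * u := by
    have hu : π q - π p ≠ 0 := fun c => hpq (by
      have c0 := congrArg re c
      have c1 := congrArg im c
      simp [π] at c0 c1
      ext i
      fin_cases i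
      · simp; linarith
      · simp; linarith
      · simp [hp, hq])
    have : (π p + π q) / (π q - π p) = ((π p + π q) / (π q - π p)).im * I := by
      apply Complex.ext
      · rw [div_re, ← add_div]
        simp [π]
        left
        linarith
      · simp
    generalize ((π p + π q) / (π q - π p)).im = l at this
    rw [div_eq_iff hu] at this
    exact ⟨(π q - π p) / 2, l, by simpa using hu, by linear_combination this / 2,
      by linear_combination this / 2⟩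
  have hu' : 0 < ‖u‖ := norm_pos_iff.2 hu
  have key : ∀ τ : ℝ, (∃ n : ℕ, n ≠ 0 ∧ (-1 : ℂ) ^ n = 1 ∧
      ∃ ω : ℂ, ω ^ n = 1 ∧ 1 + τ * I = ω * (-1 + τ * I)) → ∀ H α : ℝ, 0 < H → 0 < α →
      RI ({a₁, a₂, a₃, a₄, p, q} : Set (EuclideanSpace ℝ (Fin 3))) (fun a b => α * (normSq
        ((π a + if a.1 2 = 0 then 0 else (τ - l) * I * u) -
        (π b + if b.1 2 = 0 then 0 else (τ - l) * I * u)) + if a.1 2 = 0 ↔ b.1 2 = 0 then 0 else H))
        fun _ y => y = ⟨q, by simp⟩ := by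
    rintro τ ⟨n, hn, m1, ω, hω, e⟩ H α H0 α0
    have _ : NeZero n := ⟨hn⟩
    refine (prism n hκ (fun a : ({a₁, a₂, a₃, a₄, p, q} : Set _) =>
      π a + if a.1 2 = 0 then 0 else (τ - l) * I * u) (fun a => a.1 2 = 0) (x0 := ⟨a₁, by simp⟩)
      (y0 := ⟨q, by simp⟩) (by simp [hq, hh.ne']) ?_ ?_ H0).sub id (inv_pos.2 α0)
      (fun a b => by simp [α0.ne']) fun _ _ => id
    · rintro ⟨_, rfl | rfl | rfl | rfl | rfl | rfl⟩ c <;> simp only [if_pos c, if_pos h₁, add_zero]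
      · exact ⟨1, by simp⟩
      · exact ⟨1, by simp [p2]⟩
      · exact ⟨-1, m1, .inl p3⟩
      · exact ⟨-1, m1, by simp [p2, p4]⟩
      · exact absurd (hp ▸ c) hh.ne'
      · exact absurd (hq ▸ c) hh.ne'
    · rintro ⟨_, rfl | rfl | rfl | rfl | rfl | rfl⟩ c
      exacts [absurd h₁ c, absurd h₂ c, absurd h₃ c, absurd h₄ c, ⟨ω, hω, .inl (by
        simp only [hp, hq, hh.ne', if_false, pp, pq]; linear_combination u * e)⟩, ⟨1, by simp⟩]
  have η : 0 < h / ‖u‖ := by positivity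
  obtain ⟨s, s1, s2, hs⟩ := dense (sub_lt_self l η)
  obtain ⟨t, t1, t2, ht⟩ := dense (lt_add_of_pos_right l η)
  have H0 : 0 < h ^ 2 - (t - l) * (l - s) * normSq u := by
    have := mul_lt_mul'' (sub_lt_iff_lt_add'.2 t2) (sub_lt_comm.1 s1) (by linarith) (by linarith)
    rw [div_mul_div_comm, lt_div_iff₀ (by positivity)] at this
    rw [normSq_eq_norm_sq]
    linarith
  refine RI.out (F := Subtype _) (z := ⟨q, by simp⟩) (((key s hs _ _ H0 (sub_pos.2 t1)).prod
    (key t ht _ _ H0 (sub_pos.2 s2))).sub (fun a => (a, a)) (k := t - s) (by linarith) ?_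
    fun _ _ r => ⟨r, r⟩) k
  have : ∀ a : ({a₁, a₂, a₃, a₄, p, q} : Set (EuclideanSpace ℝ (Fin 3))), a.1 2 ≠ 0 → a.1 2 = h := by
    rintro ⟨_, rfl | rfl | rfl | rfl | rfl | rfl⟩ c
    exacts [absurd h₁ c, absurd h₂ c, absurd h₃ c, absurd h₄ c, hp, hq]
  intro a b
  rw [Subtype.dist_eq, EuclideanSpace.dist_sq_eq, Fin.sum_univ_three]
  by_cases c : a.1 2 = 0 <;> by_cases c' : b.1 2 = 0 <;>
    simp [c, c', this, hh.ne', normSq_apply, π, Real.dist_eq] <;> ring

end Pool.Agent.Results.MP_e0af59_co.Yes
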